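import Pool.Agent.Helper58.GC.Defs
import Pool.Agent.Helper16.ETC.N12

/-! GC-N: the determinant `nrm` is the product of the conjugates (from ETC-N12 of helper16). -/

set_option autoImplicit false

namespace Pool.Agent.Helper58.GC

open Pool.Agent.Helper25.EC Pool.Agent.Helper59.EC

/-- the two norm forms agree -/
theorem nrm_eq_nf {R : Type*} [CommRing R] (p : ℕ) (a : R) (β : Fin p → R) :
    nrm p a β = Pool.Helper37.ETC.nf β a := by
  unfold nrm Pool.Helper37.ETC.nf
  congr 1
  ext i j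
  simp only [Matrix.of_apply]
  split_ifs
  · rw [one_mul]
  · rfl

/-- GC-N. The determinant `nrm` is the product of the conjugates. -/
theorem nrm_eq_prod {K : Type*} [Field K] {p : ℕ} (hp : p.Prime) {ζ : K}
    (hζ : IsPrimitiveRoot ζ p) {t : K} (ht : t ≠ 0) (β : Fin p → K) :
    nrm p (t ^ p) β = ∏ j ∈ Finset.range p, ∑ k : Fin p, β k * (ζ ^ j * t) ^ (k : ℕ) := by
  have : Fact p.Prime := ⟨hp⟩
  rw [nrm_eq_nf, Pool.Helper37.ETC.nf_eq_prod hζ]

end Pool.Agent.Helper58.GC
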